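import Pool.Agent.MP_ed9623_an.H77.SpecX

/-! Dissipation in an annulus, when the radial derivative of the energy is nonnegative. -/

open MeasureTheory Filter Topology Set
open scoped ContDiff

namespace Pool.Agent.MP_ed9623_an.H77

open H64

namespace Diss1

/-- An integrable function with its integral. -/
def HI (f : P → ℝ) (a : ℝ) : Prop := Integrable f ∧ ∫ x, f x = a

theorem HI.of {f : P → ℝ} (h : Integrable f) : HI f (∫ x, f x) := ⟨h, rfl⟩

theorem HI.add {f g : P → ℝ} {a b : ℝ} (h : HI f a) (h' : HI g b) :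
    HI (fun x => f x + g x) (a + b) := ⟨h.1.add h'.1, by rw [integral_add h.1 h'.1, h.2, h'.2]⟩

theorem HI.mul {f : P → ℝ} {a : ℝ} (h : HI f a) (c : ℝ) : HI (fun x => c * f x) (c * a) :=
  ⟨h.1.const_mul c, by rw [integral_const_mul, h.2]⟩

theorem tint {φ f : P → ℝ} (hφ : Test univ φ) (hf : Integrable f) :
    Integrable fun x => φ x * f x := by
  obtain ⟨C, -, h⟩ := hφ.bd
  exact hf.bdd_mul hφ.ct.aestronglyMeasurable (c := C) (Eventually.of_forall h)

theorem int_Ph {φ : P → ℝ} (hφ : Test univ φ) (c : P) (v : E6) :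
    Integrable fun x => φ x * Ph c (vl v) (gj v) x := by
  simp only [Ph, Finset.mul_sum]
  exact integrable_finsetSum _ fun j _ => integrable_finsetSum _ fun i _ =>
    (int_mul3 (m2_vl v j) (m2_gj v j i) (hφ.smul (sm_Xc c i))).congr
      (Eventually.of_forall fun x => by ring)

theorem int_mm (v : E6) : Integrable (mm (vl v)) :=
  integrable_finsetSum _ fun j _ => (m2_vl v j).int_sq

theorem int_zw (v : E6) {z : Fin 2 → P → ℝ} (hz : ∀ j, M2 (z j)) :
    Integrable fun x => ∑ j, z j x * vl v j x :=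
  integrable_finsetSum _ fun j _ => (hz j).int_mul (m2_vl v j)

/-- A decreasing step. -/
noncomputable def gg (a b t : ℝ) : ℝ := Real.smoothTransition ((b - t) / (b - a))

variable {a b t : ℝ}

theorem sm_gg (a b : ℝ) : ContDiff ℝ ∞ (gg a b) :=
  Real.smoothTransition.contDiff.comp ((contDiff_const.sub contDiff_id).div_const _)

theorem gg_one (h : a < b) (ht : t ≤ a) : gg a b t = 1 :=
  Real.smoothTransition.one_of_one_le ((one_le_div (sub_pos.2 h)).2 (by linarith))

theorem gg_zero (h : a < b) (ht : b ≤ t) : gg a b t = 0 :=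
  Real.smoothTransition.zero_of_nonpos
    (div_nonpos_of_nonpos_of_nonneg (sub_nonpos.2 ht) (sub_pos.2 h).le)

theorem gg_nn (a b t : ℝ) : 0 ≤ gg a b t := Real.smoothTransition.nonneg _

theorem gg_le (a b t : ℝ) : gg a b t ≤ 1 := Real.smoothTransition.le_one _

theorem dgg_le (h : a < b) (t : ℝ) : deriv (gg a b) t ≤ 0 :=
  Antitone.deriv_nonpos fun _ _ k => Real.smoothTransition.monotone
    (div_le_div_of_nonneg_right (by linarith) (sub_pos.2 h).le)

theorem dgg_lo (h : a < b) (ht : t < a) : deriv (gg a b) t = 0 := by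
  have : gg a b =ᶠ[𝓝 t] fun _ => 1 :=
    mem_of_superset (Iio_mem_nhds ht) fun _ k => gg_one h (le_of_lt k)
  rw [this.deriv_eq, deriv_const]

theorem dgg_hi (h : a < b) (ht : b < t) : deriv (gg a b) t = 0 := by
  have : gg a b =ᶠ[𝓝 t] fun _ => 0 :=
    mem_of_superset (Ioi_mem_nhds ht) fun _ k => gg_zero h (le_of_lt k)
  rw [this.deriv_eq, deriv_const]

theorem test_gg (h : a < b) (c : P) : Test univ fun x => gg a b (qc c x) :=
  ⟨(sm_gg a b).comp (sm_qc c), HasCompactSupport.intro (isCompact_disc c (b + 1)) fun x hx =>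
    gg_zero h (by have : (b + 1) ^ 2 < qc c x := not_le.1 hx; nlinarith [sq_nonneg (b + 1 / 2)]), subset_univ _⟩

theorem qc_nn (c x : P) : 0 ≤ qc c x := by unfold qc; positivity

/-- The divergence of a radial field. -/
theorem hi_div (h : a < b) (c : P) :
    HI (fun x => gg a b (qc c x) + qc c x * deriv (gg a b) (qc c x)) 0 := by
  have T := test_gg h c
  have e : ∀ i x, pd (ee i) (fun x => gg a b (qc c x)) x
      = deriv (gg a b) (qc c x) * (2 * Xc c i x) := fun i x => by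
    rw [← pd_qc]
    have := ((sm_hasDerivAt (sm_gg a b) (qc c x)).comp_hasFDerivAt x
      (sm_diff (sm_qc c) x).hasFDerivAt).fderiv
    exact congrArg (· (ee i)) this
  have k : ∀ i, HI (fun x => Xc c i x * pd (ee i) (fun x => gg a b (qc c x)) x)
      (-∫ x, gg a b (qc c x)) := fun i =>
    ⟨((T.pd _).smul (sm_Xc c i)).ct.integrable_of_hasCompactSupport ((T.pd _).smul (sm_Xc c i)).2.1,
      by simpa [pd_Xc] using WD.of_cd (contDiff_infty.1 (sm_Xc c i) 1) univ (ee i) _ T⟩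
  have := (HI.of (T.ct.integrable_of_hasCompactSupport T.2.1)).add (((k 0).add (k 1)).mul (1 / 2))
  have e' : (fun x => gg a b (qc c x) + qc c x * deriv (gg a b) (qc c x)) = fun x =>
      gg a b (qc c x) + 1 / 2 * (Xc c 0 x * pd (ee 0) (fun x => gg a b (qc c x)) x
        + Xc c 1 x * pd (ee 1) (fun x => gg a b (qc c x)) x) := funext fun x => by
    rw [e, e]
    nth_rewrite 2 [qc_eq]
    rw [Fin.sum_univ_two]
    ring
  rw [e']
  exact ⟨this.1, this.2.trans (by ring)⟩

theorem pt {w x y d e S : ℝ} (h : x ^ 2 + y ^ 2 ≤ S) :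
    0 ≤ w ^ 2 + 2 * (w * x * d + w * y * e) + S * (d ^ 2 + e ^ 2) := by
  nlinarith [sq_nonneg (w + x * d + y * e), sq_nonneg (x * e - y * d),
    mul_nonneg (sub_nonneg.2 h) (add_nonneg (sq_nonneg d) (sq_nonneg e))]

/-- The weight. -/
noncomputable def bb (S a b t : ℝ) : ℝ := gg (S + 1) (S + 2) t - gg a b t

theorem bb_abs {S : ℝ} (t : ℝ) : |bb S a b t| ≤ 1 := by
  rw [bb, abs_le]
  constructor <;>
    linarith [gg_nn (S + 1) (S + 2) t, gg_le a b t, gg_le (S + 1) (S + 2) t, gg_nn a b t]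

theorem bb_nn {S : ℝ} (h : a < b) (hb : b < S) (t : ℝ) : 0 ≤ bb S a b t := by
  rcases le_total t (S + 1) with k | k
  · rw [bb, gg_one (by linarith) k]; linarith [gg_le a b t]
  · rw [bb, gg_zero h (by linarith)]; linarith [gg_nn (S + 1) (S + 2) t]

theorem bb_lo {S : ℝ} (h : a < b) (hb : b < S) (ht : t ≤ a) : bb S a b t = 0 := by
  rw [bb, gg_one h ht, gg_one (by linarith) (by linarith), sub_self]

theorem key (hR : RadS) (hE : EnIdS) {Ω : Set P} {c : P} {r R η δ : ℝ} {v : E6}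
    {z : Fin 2 → P → ℝ} (hr : 0 < r) (hΩ : ∀ x ∈ Ω, qc c x < R ^ 2) (hv : v ∈ Ys Ω)
    (hz : ∀ j, M2 (z j)) (hH : Hz (An c r R) (gj v) z) (hδ : 0 ≤ δ)
    (hη : ∀ᵐ x, x ∈ An c r (r + η) → -δ ≤ Ph c (vl v) (gj v) x) (ha : r ^ 2 < a) (h : a < b)
    (hb : b < R ^ 2) (hb' : b < (r + η) ^ 2) :
    ∫ x, bb (R ^ 2) a b (qc c x) * (R ^ 2 * ∑ j, z j x * vl v j x + mm (vl v) x)
      ≤ 2 * R ^ 2 * δ / r ^ 2 * ∫ x, gg (R ^ 2 + 1) (R ^ 2 + 2) (qc c x) := by
  have hY := Ys_le Ω hv
  have sβ : ContDiff ℝ ∞ (bb (R ^ 2) a b) := (sm_gg _ _).sub (sm_gg _ _)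
  have cβ : HasCompactSupport (bb (R ^ 2) a b) :=
    HasCompactSupport.intro (isCompact_Icc (a := a) (b := R ^ 2 + 2)) fun t ht => by
      rcases le_total t a with k | k
      · exact bb_lo h hb k
      · have : R ^ 2 + 2 < t := not_le.1 fun k' => ht ⟨k, k'⟩
        rw [bb, gg_zero h (by linarith), gg_zero (by linarith) this.le, sub_self]
  have tβ : tsupport (bb (R ^ 2) a b) ⊆ Ici a :=
    closure_minimal (fun t ht => (not_le.1 fun k => ht (bb_lo h hb k)).le) isClosed_Ici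
  obtain ⟨T, e1⟩ := hR c _ _ _ hY.1 sβ cβ
  have T' := (hR c _ _ _ hY.1 (contDiff_infty_iff_deriv.1 sβ).2 cβ.deriv).1
  have e2 := hE Ω _ c v z _ hv hz hH sβ cβ fun x hx k => ⟨ha.trans_le (tβ k), hΩ x hx⟩
  have T0 := test_gg (a := R ^ 2 + 1) (b := R ^ 2 + 2) (by linarith) c
  have H := ((((((HI.of (tint T (int_zw v hz))).add (HI.of (tint T (integrable_finsetSum
    Finset.univ fun j _ => integrable_finsetSum Finset.univ fun i _ => (m2_gj v j i).int_sq)))).add
    ((HI.of (int_Ph T' c v)).mul 2)).mul (R ^ 2)).add (((HI.of (int_Ph T c v)).add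
    (HI.of (tint (T.add (T'.smul (sm_qc c))) (int_mm v)))).mul 2)).add
    (((HI.of (T0.ct.integrable_of_hasCompactSupport T0.2.1)).add ((hi_div h c).mul (-1))).mul
      (2 * R ^ 2 * δ / r ^ 2)))
  refine (integral_mono_ae (tint T (((int_zw v hz).const_mul _).add (int_mm v))) H.1 ?_).trans_eq
    (H.2.trans (by rw [e1, e2]; ring))
  filter_upwards [ae_all_iff.2 hY.2, hη] with x h0 h1
  have b0 := bb_nn h hb (qc c x)
  have d0 := dgg_le h (qc c x)
  have κ0 : 0 ≤ 2 * R ^ 2 * δ / r ^ 2 := by positivity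
  have q0 := mul_nonneg (qc_nn c x) (neg_nonneg.2 d0)
  have g0 : 0 ≤ gg (R ^ 2 + 1) (R ^ 2 + 2) (qc c x) - gg a b (qc c x) := b0
  by_cases hx : x ∈ Ω
  · have hq := hΩ x hx
    have ed : deriv (bb (R ^ 2) a b) (qc c x) = -deriv (gg a b) (qc c x) := by
      have := ((sm_hasDerivAt (sm_gg (R ^ 2 + 1) (R ^ 2 + 2)) (qc c x)).sub
        (sm_hasDerivAt (sm_gg a b) (qc c x))).deriv
      rw [dgg_lo (by linarith) (by linarith), zero_sub] at this
      exact this
    have hq' : Xc c 0 x ^ 2 + Xc c 1 x ^ 2 ≤ R ^ 2 := by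
      have := qc_eq c x
      rw [Fin.sum_univ_two] at this
      linarith
    have p1 : 0 ≤ mm (vl v) x + 2 * Ph c (vl v) (gj v) x + R ^ 2 * ∑ j, ∑ i, gj v j i x ^ 2 := by
      simp only [mm, Ph, Fin.sum_univ_two]
      linarith [pt (w := vl v 0 x) (d := gj v 0 0 x) (e := gj v 0 1 x) hq',
        pt (w := vl v 1 x) (d := gj v 1 0 x) (e := gj v 1 1 x) hq']
    have m0 : 0 ≤ mm (vl v) x := Finset.sum_nonneg fun j _ => sq_nonneg _
    have p2 : 0 ≤ 2 * R ^ 2 * (-deriv (gg a b) (qc c x) * Ph c (vl v) (gj v) x)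
        + 2 * R ^ 2 * δ / r ^ 2 * (qc c x * -deriv (gg a b) (qc c x)) := by
      by_cases k : deriv (gg a b) (qc c x) = 0
      · simp [k]
      · have k1 : r ^ 2 < qc c x := ha.trans_le (not_lt.1 fun k' => k (dgg_lo h k'))
        have k2 := h1 ⟨k1, (not_lt.1 fun k' => k (dgg_hi h k')).trans_lt hb'⟩
        have k3 : δ ≤ δ / r ^ 2 * qc c x := by
          rw [div_mul_eq_mul_div, le_div_iff₀ (by positivity)]
          exact mul_le_mul_of_nonneg_left k1.le hδ
        have := mul_nonneg (mul_nonneg (sq_nonneg R) (neg_nonneg.2 d0))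
          (show 0 ≤ Ph c (vl v) (gj v) x + δ / r ^ 2 * qc c x by linarith)
        calc (0 : ℝ) ≤ 2 * _ := mul_nonneg zero_le_two this
          _ = _ := by ring
    simp only [Pi.add_apply]
    rw [ed]
    nlinarith [mul_nonneg b0 p1, mul_nonneg q0 m0, mul_nonneg κ0 g0]
  · have a1 : ∀ j, vl v j x = 0 := fun j => h0 (j, none) hx
    have a2 : ∀ j i, gj v j i x = 0 := fun j i => h0 (j, some i) hx
    simp only [Pi.add_apply, mm, Ph, a1, a2]
    have := mul_nonneg κ0 (add_nonneg g0 q0)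
    simp only [mul_zero, Finset.sum_const_zero, ne_eq, OfNat.ofNat_ne_zero, not_false_eq_true,
      zero_pow, add_zero, zero_add]
    linarith

end Diss1

open Diss1

theorem rowDiss1 : OfDiss1 := fun hR hE Ω c r R v z hr hrR hΩ hv hz hH hδ => by
  have iG := ((int_zw v hz).const_mul (R ^ 2)).add (int_mm v)
  have rR : r ^ 2 < R ^ 2 := by nlinarith
  have lim : Tendsto (fun b => ∫ x, bb (R ^ 2) ((r ^ 2 + b) / 2) b (qc c x)
      * (R ^ 2 * ∑ j, z j x * vl v j x + mm (vl v) x)) (𝓝[>] (r ^ 2))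
      (𝓝 (∫ x, (An c r R).indicator (fun x => R ^ 2 * ∑ j, z j x * vl v j x + mm (vl v) x) x)) := by
    refine tendsto_integral_filter_of_dominated_convergence _ (Eventually.of_forall fun b =>
      (((sm_gg _ _).sub (sm_gg _ _)).comp (sm_qc c)).continuous.aestronglyMeasurable.mul iG.1)
      (Eventually.of_forall fun b => Eventually.of_forall fun x => ?_) iG.norm ?_
    · rw [norm_mul]
      exact mul_le_of_le_one_left (norm_nonneg _) (bb_abs _)
    · filter_upwards [ae_all_iff.2 (Ys_le Ω hv).2] with x h0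
      refine tendsto_const_nhds.congr' ?_
      by_cases hx : x ∈ Ω
      · rcases lt_or_ge (r ^ 2) (qc c x) with k | k
        · filter_upwards [Ioo_mem_nhdsGT k] with b hb
          rw [indicator_of_mem (show x ∈ An c r R from ⟨k, hΩ x hx⟩), bb, gg_zero (by
            linarith [hb.1]) hb.2.le, gg_one (by linarith) (by linarith [hΩ x hx]), sub_zero, one_mul]
        · filter_upwards [Ioo_mem_nhdsGT rR] with b hb
          rw [indicator_of_notMem fun k' : x ∈ An c r R => k'.1.not_ge k,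
            bb_lo (by linarith [hb.1]) hb.2 (by linarith [hb.1]), zero_mul]
      · have a1 : ∀ j, vl v j x = 0 := fun j => h0 (j, none) hx
        exact Eventually.of_forall fun b => by simp [mm, a1]
  rw [integral_indicator (isOpen_An c r R).measurableSet, integral_add
    ((int_zw v hz).const_mul _).integrableOn (int_mm v).integrableOn, integral_const_mul] at lim
  have K0 : 0 ≤ 2 * R ^ 2 / r ^ 2 * ∫ x, gg (R ^ 2 + 1) (R ^ 2 + 2) (qc c x) :=
    mul_nonneg (by positivity) (integral_nonneg fun x => gg_nn _ _ _)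
  refine le_neg_iff_add_nonpos_right.2 (le_of_forall_pos_le_add fun ε hε => ?_)
  obtain ⟨η, h0, hη⟩ := hδ (ε / (2 * R ^ 2 / r ^ 2 * (∫ x, gg (R ^ 2 + 1) (R ^ 2 + 2) (qc c x)) + 1))
    (by positivity)
  refine le_of_tendsto lim ?_
  filter_upwards [Ioo_mem_nhdsGT rR, Ioo_mem_nhdsGT (show r ^ 2 < (r + η) ^ 2 by nlinarith)]
    with b hb hb'
  refine (key hR hE hr hΩ hv hz hH (by positivity) hη (by linarith [hb.1]) (by linarith [hb.1])
    hb.2 hb'.2).trans ?_
  rw [zero_add, show ∀ d I : ℝ, 2 * R ^ 2 * d / r ^ 2 * I = d * (2 * R ^ 2 / r ^ 2 * I) from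
    fun d I => by ring, div_mul_eq_mul_div, div_le_iff₀ (by positivity)]
  nlinarith

end Pool.Agent.MP_ed9623_an.H77
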