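import Pool.Agent.MP_ed9623_an.H77.SpecW

/-! One step of the vorticity bootstrap. -/

open MeasureTheory Filter Topology Set
open scoped ContDiff

namespace Pool.Agent.MP_ed9623_an.H77

open H64

namespace BootS

variable {O : Set P} {f a b θ : P → ℝ} {e e' : P}

theorem swap (h : WD O e f a) (h' : WD O e' f b) (hθ : Test O θ) :
    ∫ x, a x * pd e' θ x = ∫ x, b x * pd e θ x := by
  have p := h _ (hθ.pd e')
  have q := h' _ (hθ.pd e)
  rw [pd_comm_sm hθ.1] at p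
  linarith

theorem ip_perp {z : Fin 2 → P → ℝ} (h0 : WD O (ee 1) (z 0) a) (h1 : WD O (ee 0) (z 1) b)
    (ha : M2 a) (hb : M2 b) (hθ : Test O θ) :
    ip z (perp (fun _ => 0) θ) = -∫ x, (b x - a x) * θ x := by
  have p := h0 θ hθ
  have q := h1 θ hθ
  have e0 : perp (fun _ => 0) θ 0 = fun p => -pd (ee 1) θ p := rfl
  have e1 : perp (fun _ => 0) θ 1 = pd (ee 0) θ := dd_zero 0 θ
  simp only [ip, Fin.sum_univ_two, e0, e1, mul_neg, integral_neg, sub_mul]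
  rw [integral_sub (hb.int_mul hθ.m2) (ha.int_mul hθ.m2)]
  linarith

theorem di_perp {u : Fin 2 → P → ℝ} {du : Fin 2 → Fin 2 → P → ℝ} {d : Fin 2 → P → ℝ}
    (hw : ∀ j i, WD O (ee i) (u j) (du j i)) (hm : ∀ j i, M2 (du j i))
    (hd : ∀ l, WD O (ee l) (fun p => du 1 0 p - du 0 1 p) (d l)) (hθ : Test O θ) :
    di (fun _ => 0) du (perp (fun _ => 0) θ) = -∑ l, ∫ x, d l x * dd (fun _ => 0) l θ x := by
  have e0 : perp (fun _ => 0) θ 0 = fun p => -pd (ee 1) θ p := rfl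
  have e1 : perp (fun _ => 0) θ 1 = pd (ee 0) θ := dd_zero 0 θ
  have p0 := hd 0 _ (hθ.pd (ee 0))
  have p1 := hd 1 _ (hθ.pd (ee 1))
  have s0 := swap (hw 0 0) (hw 0 1) (hθ.pd (ee 0))
  have s1 := swap (hw 1 0) (hw 1 1) (hθ.pd (ee 1))
  simp only [sub_mul] at p0 p1
  rw [integral_sub ((hm 1 0).int_mul ((hθ.pd _).pd _).m2) ((hm 0 1).int_mul ((hθ.pd _).pd _).m2)]
    at p0 p1
  simp only [di, Fin.sum_univ_two, e0, e1, dd_zero, pd_neg, mul_neg, integral_neg]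
  rw [pd_comm_sm hθ.1 (ee 0) (ee 1)] at s1 ⊢
  linarith

theorem so_low {r r₁ : ℝ} (hr : r₁ ≤ r) {W F : P → ℝ} {d : Fin 2 → P → ℝ}
    (h1 : H1O (Q r₁) (fun _ => 0) W d) (hF : M2 F)
    (he : ∀ φ, Test (Q r₁) φ → ∑ i, ∫ x, d i x * dd (fun _ => 0) i φ x = ∫ x, F x * φ x) :
    So (fun _ => 0) (-r) r₁ W d F := by
  have hq : Qp (-r) r₁ = Q r₁ := Qp_low (by linarith)
  refine ⟨h1, hF, ?_, ?_⟩
  · rw [hq, Set.sdiff_self]
    exact Eventually.of_forall fun _ hp => hp.elim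
  · rw [hq]; exact he

theorem eq_u {u : Fin 2 → P → ℝ} {du : Fin 2 → Fin 2 → P → ℝ} {d : Fin 2 → P → ℝ}
    (hw : ∀ j i, WD O (ee i) (u j) (du j i)) (hm : ∀ j i, M2 (du j i))
    (dv : ∀ᵐ p, du 0 0 p + du 1 1 p = 0)
    (hd : ∀ l, WD O (ee l) (fun p => du 1 0 p - du 0 1 p) (d l)) (hθ : Test O θ) :
    (∑ i, ∫ x, du 0 i x * dd (fun _ => 0) i θ x = ∫ x, d 1 x * θ x) ∧
      ∑ i, ∫ x, du 1 i x * dd (fun _ => 0) i θ x = ∫ x, -d 0 x * θ x := by
  have p0 := hd 0 _ hθ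
  have p1 := hd 1 _ hθ
  have s0 := swap (hw 0 0) (hw 0 1) hθ
  have s1 := swap (hw 1 0) (hw 1 1) hθ
  have t : ∀ l, ∫ x, du 0 0 x * pd (ee l) θ x = -∫ x, du 1 1 x * pd (ee l) θ x := fun l => by
    rw [← integral_neg]
    refine integral_congr_ae (dv.mono fun x hx => ?_)
    have : du 0 0 x = -du 1 1 x := by linarith
    simp only [this, neg_mul]
  have t0 := t 0
  have t1 := t 1
  simp only [sub_mul] at p0 p1
  rw [integral_sub ((hm 1 0).int_mul (hθ.pd _).m2) ((hm 0 1).int_mul (hθ.pd _).m2)] at p0 p1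
  simp only [Fin.sum_univ_two, dd_zero, neg_mul, integral_neg]
  constructor <;> linarith

end BootS

open BootS in
theorem rowBootS : OfBootS := by
  intro hb hk k r r' R h0 hr hR
  obtain ⟨C₁, c1, H₁⟩ := hk (fun _ => 0) (-r) k r ((r + r') / 2) (5 * R) Gam.zero (by linarith)
    (by linarith) (by linarith) (by linarith)
  obtain ⟨C₂, c2, H₂⟩ := hk (fun _ => 0) (-r) (k + 1) ((r + r') / 2) r' (R + C₁) Gam.zero
    (by linarith) h0 (by linarith) (by linarith)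
  refine ⟨C₂, c2, fun u z N du dz G hu hz nb mG hG hN he => ?_⟩
  have q0 : Qp (-r) r = Q r := Qp_low le_rfl
  have q1 : Qp (-r) ((r + r') / 2) = Q ((r + r') / 2) := Qp_low (by linarith)
  have q2 : Qp (-r) r' = Q r' := Qp_low (by linarith)
  have sub : Q ((r + r') / 2) ⊆ Q r := Q_mono (by linarith)
  have mu : ∀ j i, M2 (du j i) := fun j i => (hu.h1 j).md i
  have wu : ∀ j i, WD (Q r) (ee i) (u j) (du j i) := fun j i =>
    (((H1O.zero_iff.1 (hu.h1 j)).2 i).2).mono (subset_univ _)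
  have mz : ∀ j i, M2 (dz j i) := fun j i => (hz j).md i
  have wz : ∀ j i, WD (Q r) (ee i) (z j) (dz j i) := fun j i =>
    (((H1O.zero_iff.1 (hz j)).2 i).2).mono (subset_univ _)
  obtain ⟨g10, a10⟩ := hb.1 (Q r) k (du 1 0) R (mu 1 0) hR ((hN 1).2.2 0).1
  obtain ⟨g01, a01⟩ := hb.1 (Q r) k (du 0 1) R (mu 0 1) hR ((hN 0).2.2 1).1
  obtain ⟨n0, b0⟩ := hb.1 (Q r) k (N 0) R (hN 0).1 hR (hN 0).2.1
  obtain ⟨n1, b1⟩ := hb.1 (Q r) k (N 1) R (hN 1).1 hR (hN 1).2.1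
  have mom : M2 fun p => du 1 0 p - du 0 1 p := (mu 1 0).sub (mu 0 1)
  have md : ∀ l, M2 fun p => g10 l p - g01 l p := fun l => (a10 l).1.sub (a01 l).1
  have wd : ∀ l, WD (Q r) (ee l) (fun p => du 1 0 p - du 0 1 p) fun p => g10 l p - g01 l p :=
    fun l => (a10 l).2.2.1.sub (a01 l).2.2.1 (mu 1 0) (a10 l).1 (mu 0 1) (a01 l).1
  have mcz : M2 fun p => dz 1 0 p - dz 0 1 p := (mz 1 0).sub (mz 0 1)
  have mcn : M2 fun p => n1 0 p - n0 1 p := (b1 0).1.sub (b0 1).1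
  have so1 : So (fun _ => 0) (-r) r (fun p => du 1 0 p - du 0 1 p)
      (fun l p => g10 l p - g01 l p)
      fun p => G p - (dz 1 0 p - dz 0 1 p) - (n1 0 p - n0 1 p) := by
    refine so_low le_rfl (H1O.zero_iff.2 ⟨mom, fun l => ⟨md l, wd l⟩⟩) ((mG.sub mcz).sub mcn)
      fun θ hθ => ?_
    have e := he θ hθ
    rw [di_perp (d := fun l p => g10 l p - g01 l p) wu mu wd hθ,
      ip_perp (wz 0 1) (wz 1 0) (mz 0 1) (mz 1 0) hθ,
      ip_perp (b0 1).2.2.1 (b1 0).2.2.1 (b0 1).1 (b1 0).1 hθ] at e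
    have e' : (fun x => (G x - (dz 1 0 x - dz 0 1 x) - (n1 0 x - n0 1 x)) * θ x) = fun x =>
        G x * θ x - (dz 1 0 x - dz 0 1 x) * θ x - (n1 0 x - n0 1 x) * θ x :=
      funext fun x => by ring
    have i1 : Integrable fun x => G x * θ x - (dz 1 0 x - dz 0 1 x) * θ x :=
      (mG.int_mul hθ.m2).sub (mcz.int_mul hθ.m2)
    rw [e', integral_sub i1 (mcn.int_mul hθ.m2),
      integral_sub (mG.int_mul hθ.m2) (mcz.int_mul hθ.m2)]
    linarith
  have hF : HB (Q r) k (fun p => G p - (dz 1 0 p - dz 0 1 p) - (n1 0 p - n0 1 p)) (5 * R) :=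
    ((hG.sub (((hN 1).2.2 0).2.sub ((hN 0).2.2 1).2 (mz 1 0) (mz 0 1)) mG mcz).sub
      ((b1 0).2.2.2.sub (b0 1).2.2.2 (b1 0).1 (b0 1).1) (mG.sub mcz) mcn).mono
      subset_rfl le_rfl (by linarith)
  have r1 := (H₁ _ _ _ so1 ((nm_sub_le (mu 1 0) (mu 0 1)).trans
      (by linarith [(nb 1).2 0, (nb 0).2 1]))
    (fun l => (nm_sub_le (a10 l).1 (a01 l).1).trans (by linarith [(a10 l).2.1, (a01 l).2.1]))
    (q0 ▸ hF)).2
  rw [q1] at r1
  have eu := fun θ (hθ : Test (Q ((r + r') / 2)) θ) =>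
    eq_u (d := fun l p => g10 l p - g01 l p) wu mu hu.dv wd (hθ.mono sub)
  have s0 : So (fun _ => 0) (-r) ((r + r') / 2) (u 0) (du 0) fun p => g10 1 p - g01 1 p :=
    so_low (by linarith) ((hu.h1 0).mono (subset_univ _)) (md 1) fun θ hθ => (eu θ hθ).1
  have s1 : So (fun _ => 0) (-r) ((r + r') / 2) (u 1) (du 1) fun p => -(g10 0 p - g01 0 p) :=
    so_low (by linarith) ((hu.h1 1).mono (subset_univ _)) (md 0).neg fun θ hθ => (eu θ hθ).2
  have t0 := (H₂ _ _ _ s0 ((nb 0).1.trans (by linarith))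
    (fun i => ((nb 0).2 i).trans (by linarith))
    (q1 ▸ (r1 1).mono subset_rfl le_rfl (by linarith))).2
  have t1 := (H₂ _ _ _ s1 ((nb 1).1.trans (by linarith))
    (fun i => ((nb 1).2 i).trans (by linarith))
    (q1 ▸ (r1 0).neg.mono subset_rfl le_rfl (by linarith))).2
  rw [q2] at t0 t1
  intro j i
  fin_cases j
  · exact t0 i
  · exact t1 i

end Pool.Agent.MP_ed9623_an.H77
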