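import Pool.Agent.MP_ed9623_an.H77.SpecA

/-! Forward Lipschitz estimate. -/

open MeasureTheory Filter Topology Set
open scoped ContDiff InnerProductSpace

namespace Pool.Agent.MP_ed9623_an.H77

namespace Fwd

variable {H V : Type} [NormedAddCommGroup H] [InnerProductSpace ℝ H] [CompleteSpace H]
  [NormedAddCommGroup V] [InnerProductSpace ℝ V] [CompleteSpace V]

theorem key (S : St H V) {R : ℝ} {u v : V} (hu : ‖u‖ ≤ R) (hv : ‖v‖ ≤ R) :
    2 * ⟪S.G u - S.G v, u - v⟫_ℝ ≤ -S.c * ‖u - v‖ ^ 2 +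
      4 * (S.C ^ 2 / (S.c / 4) ^ 3 * (‖S.ι‖ * R ^ 2) ^ 2) * ‖S.ι (u - v)‖ ^ 2 := by
  have hc : 0 < S.c / 4 := by have := S.c0; positivity
  have b : ∀ x : V, ‖x‖ ≤ R → (‖S.ι x‖ * ‖x‖) ^ 2 ≤ (‖S.ι‖ * R ^ 2) ^ 2 := fun x hx => by
    have h1 : ‖S.ι x‖ * ‖x‖ ≤ ‖S.ι‖ * R ^ 2 := by
      have h2 := mul_le_mul_of_nonneg_right (S.ι.le_opNorm x) (norm_nonneg x)
      have h3 : ‖x‖ * ‖x‖ ≤ R ^ 2 := by nlinarith [norm_nonneg x]
      have h4 := mul_le_mul_of_nonneg_left h3 (norm_nonneg S.ι)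
      linarith
    exact pow_le_pow_left₀ (by positivity) h1 2
  have hk : 0 ≤ S.C ^ 2 / (S.c / 4) ^ 3 := by positivity
  have y1 := S.young hc u (u - v)
  have y2 := S.young' hc v (u - v)
  have z1 := mul_le_mul_of_nonneg_left
    (mul_le_mul_of_nonneg_right (b u hu) (sq_nonneg ‖S.ι (u - v)‖)) hk
  have z2 := mul_le_mul_of_nonneg_left
    (mul_le_mul_of_nonneg_right (b v hv) (sq_nonneg ‖S.ι (u - v)‖)) hk
  have i1 := (abs_le.1 (abs_real_inner_le_norm (S.B (u - v) u) (u - v))).1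
  have i2 := (abs_le.1 (abs_real_inner_le_norm (S.B v (u - v)) (u - v))).1
  have i3 := S.coer (u - v)
  rw [S.G_sub, inner_neg_left, inner_add_left, inner_add_left]
  linarith

end Fwd

theorem fwd : OfFwd := by
  intro H V _ _ _ _ _ _ S R
  have hc := S.c0
  refine ⟨4 * (S.C ^ 2 / (S.c / 4) ^ 3 * (‖S.ι‖ * R ^ 2) ^ 2), by positivity, ?_⟩
  intro I U W hI hU hW s hs t ht hst
  set K := 4 * (S.C ^ 2 / (S.c / 4) ^ 3 * (‖S.ι‖ * R ^ 2) ^ 2) with hK
  have hd : ∀ r ∈ I, HasDerivAt (fun r => Real.exp (-(K * (r - s))) * ‖S.ι (U r - W r)‖ ^ 2)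
      (Real.exp (-(K * (r - s))) * (-K) * ‖S.ι (U r - W r)‖ ^ 2 +
        Real.exp (-(K * (r - s))) * (2 * ⟪S.G (U r) - S.G (W r), U r - W r⟫_ℝ)) r := by
    intro r hr
    have d1 : HasDerivAt (fun r => Real.exp (-(K * (r - s)))) (Real.exp (-(K * (r - s))) * (-K)) r := by
      have : HasDerivAt (fun r => -(K * (r - s))) (-K) r := by
        have h0 := (((hasDerivAt_id' r).sub_const s).const_mul K).fun_neg
        rwa [mul_one] at h0
      exact this.exp
    have d2 : HasDerivAt (fun r => S.ι (U r - W r)) (S.ι (deriv U r - deriv W r)) r :=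
      S.ι.hasFDerivAt.comp_hasDerivAt r ((hU.1.hasDerivAt hI.1 hr).sub (hW.1.hasDerivAt hI.1 hr))
    have d3 := d2.norm_sq
    have e : ⟪S.ι (U r - W r), S.ι (deriv U r - deriv W r)⟫_ℝ =
        ⟪S.G (U r) - S.G (W r), U r - W r⟫_ℝ := by
      rw [real_inner_comm, ← adj_inner, map_sub S.ι (deriv U r), map_sub, hU.1.2 r hr, hW.1.2 r hr]
    rw [e] at d3
    exact d1.mul d3
  have cy : ContinuousOn (fun r => U r - W r) (Icc s t) :=
    (hU.1.1.continuousOn.sub hW.1.1.continuousOn).mono (hI.Icc hs ht)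
  have ce : Continuous fun r : ℝ => Real.exp (-(K * (r - s))) := by fun_prop
  have cp : ContinuousOn (fun r => Real.exp (-(K * (r - s))) * ‖U r - W r‖ ^ 2) (Icc s t) :=
    ce.continuousOn.mul (cy.norm.pow 2)
  have main := intervalIntegral.sub_le_integral_of_hasDeriv_right_of_le hst
    (g := fun r => Real.exp (-(K * (r - s))) * ‖S.ι (U r - W r)‖ ^ 2)
    (φ := fun r => -S.c * (Real.exp (-(K * (r - s))) * ‖U r - W r‖ ^ 2))
    (fun r hr => (hd r (hI.Icc hs ht hr)).continuousAt.continuousWithinAt)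
    (fun r hr => (hd r (hI.Ioo hs ht hr)).hasDerivWithinAt)
    ((continuousOn_const.mul cp).integrableOn_Icc)
    (fun r hr => by
      have k := Fwd.key S (hU.2 r (hI.Ioo hs ht hr)).1 (hW.2 r (hI.Ioo hs ht hr)).1
      have k' := mul_le_mul_of_nonneg_left k (Real.exp_pos (-(K * (r - s)))).le
      rw [← hK] at k'
      linarith)
  rw [intervalIntegral.integral_const_mul] at main
  simp only [sub_self, mul_zero, neg_zero, Real.exp_zero, one_mul] at main
  linarith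

end Pool.Agent.MP_ed9623_an.H77
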