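import Pool.Agent.MP_ed9623_an.H77.SpecZ

/-! Regularity up to the boundary for the heat system. -/

open MeasureTheory Filter Topology Set
open scoped ContDiff

namespace Pool.Agent.MP_ed9623_an.H77

open H64

namespace Z1

theorem int_comp {Θ : P → P} (hm : MeasurePreserving Θ volume volume) {F : P → ℝ}
    (hF : AEStronglyMeasurable F volume) : ∫ p, F (Θ p) = ∫ q, F q := by
  rw [← integral_map hm.measurable.aemeasurable (hm.map_eq.symm ▸ hF), hm.map_eq]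

theorem nm_comp {Θ : P → P} (hm : MeasurePreserving Θ volume volume) {f : P → ℝ} (hf : M2 f) :
    nm (fun p => f (Θ p)) = nm f :=
  congrArg Real.sqrt (int_comp hm (F := fun q => f q ^ 2) hf.int_sq.aestronglyMeasurable)

theorem m2_comp {Θ : P → P} (hm : MeasurePreserving Θ volume volume) {f : P → ℝ} (hf : M2 f) :
    M2 fun p => f (Θ p) := MemLp.comp_measurePreserving hf hm

theorem nm_tv {x τ : P} {γ : ℝ → ℝ} (hτ : τ.1 ^ 2 + τ.2 ^ 2 = 1)
    (hm : MeasurePreserving (Th x τ γ) volume volume) {d : Fin 2 → P → ℝ} (hd : ∀ l, M2 (d l))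
    (i : Fin 2) : nm (tv x τ γ d i) ≤ nm (d 0) + nm (d 1) := by
  have e : tv x τ γ d i = fun p => Rm τ i 0 * d 0 (Th x τ γ p) + Rm τ i 1 * d 1 (Th x τ γ p) :=
    funext fun p => Fin.sum_univ_two _
  have b : ∀ l, nm (fun p => Rm τ i l * d l (Th x τ γ p)) ≤ nm (d l) := fun l => by
    rw [nm_cmul, nm_comp hm (hd l)]
    exact mul_le_of_le_one_left (nm_nonneg _) (abs_Rm hτ i l)
  rw [e]
  exact (nm_add_le ((m2_comp hm (hd 0)).cmul _) ((m2_comp hm (hd 1)).cmul _)).trans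
    (add_le_add (b 0) (b 1))

/-- The time derivatives of a linear identity. -/
theorem iter_eq {w : ℝ → E6} {I : Set ℝ} (hw : ContDiff ℝ ∞ w) (hI : IsOpen I)
    (l₁ l₂ : E6 →L[ℝ] ℝ) (h : ∀ t ∈ I, l₁ (deriv w t) + l₂ (w t) = 0) (m : ℕ) :
    ∀ t ∈ I, l₁ (iteratedDeriv (m + 1) w t) + l₂ (iteratedDeriv m w t) = 0 := by
  induction m with
  | zero => simpa using h
  | succ m ih =>
    intro t ht
    have a := (l₁.hasFDerivAt.comp_hasDerivAt t (sm_hasDerivAt (sm_iter hw (m + 1)) t)).add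
      (l₂.hasFDerivAt.comp_hasDerivAt t (sm_hasDerivAt (sm_iter hw m) t))
    rw [← iteratedDeriv_succ, ← iteratedDeriv_succ] at a
    refine a.unique ((hasDerivAt_const t (0 : ℝ)).congr_of_eventuallyEq ?_)
    filter_upwards [hI.mem_nhds ht] with s hs using ih s hs

theorem heat {O : Set P} {w : ℝ → E6} {I : Set ℝ} (hw : ContDiff ℝ ∞ w) (hI : IsOpen I)
    {j : Fin 2} {φ : P → ℝ} (hφ : Test O φ)
    (h : ∀ t ∈ I, (∫ x, vl (deriv w t) j x * φ x) + ∑ i, ∫ x, gj (w t) j i x * pd (ee i) φ x = 0)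
    (m : ℕ) : ∀ t ∈ I, (∫ x, vl (iteratedDeriv (m + 1) w t) j x * φ x)
      + ∑ i, ∫ x, gj (iteratedDeriv m w t) j i x * pd (ee i) φ x = 0 := by
  obtain ⟨l, hl⟩ := exists_int hφ.m2
  choose k hk using fun i => exists_int (hφ.pd (ee i)).m2
  let l₁ : E6 →L[ℝ] ℝ := l ∘L PiLp.proj 2 (fun _ : Ix => L) (j, none)
  let l₂ : E6 →L[ℝ] ℝ := k 0 ∘L PiLp.proj 2 (fun _ : Ix => L) (j, some 0)
    + k 1 ∘L PiLp.proj 2 (fun _ : Ix => L) (j, some 1)
  have e₁ : ∀ v, l₁ v = ∫ x, vl v j x * φ x := fun v => hl _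
  have e₂ : ∀ v, l₂ v = ∑ i, ∫ x, gj v j i x * pd (ee i) φ x := fun v => by
    rw [Fin.sum_univ_two]
    exact congrArg₂ (· + ·) (hk 0 _) (hk 1 _)
  simp only [← e₁, ← e₂] at h ⊢
  exact iter_eq hw hI l₁ l₂ h m

theorem so (hT : ThS) {Ω : Set P} {x τ : P} {γ : ℝ → ℝ} {r : ℝ} (hc : Ch Ω x τ γ 0 r)
    {T : L →L[ℝ] L} (hTf : ∀ f : L, T f =ᵐ[volume] fun p => f (Th x τ γ p)) {v v' : E6}
    (hv : v ∈ YZ Ω) {j : Fin 2} (h : ∀ φ, Test (Ω ∩ Thi x τ γ ⁻¹' Q r) φ →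
      (∫ x, vl v' j x * φ x) + ∑ i, ∫ x, gj v j i x * pd (ee i) φ x = 0) :
    So γ 0 r (T (v (j, none))) (tv x τ γ (gj v j)) fun p => -T (v' (j, none)) p := by
  obtain ⟨mp, -, -, ch, ts, h1⟩ := hT x τ γ hc.un hc.gam
  have H := h1 _ _ (hv.1 j)
  refine ⟨(H.congr (hTf _).symm fun _ => EventuallyEq.rfl).mono (subset_univ _), (M2.coe _).neg,
    ?_, fun ψ hψ => ?_⟩
  · filter_upwards [hTf (v (j, none)), mp.quasiMeasurePreserving.ae (hv.2 (j, none))] with p a b hp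
    exact a.trans (b fun hh => hp.2 ⟨hp.1, (hc.mem p hp.1).1 hh⟩)
  have tφ : Test (Ω ∩ Thi x τ γ ⁻¹' Q r) fun q => ψ (Thi x τ γ q) :=
    (ts _ ψ hψ).2.mono fun q hq => ⟨by
      have := (hc.mem _ hq.1).2 hq.2
      rwa [Th_Thi hc.un] at this, hq.1⟩
  have e := h _ tφ
  have i0 := (m2_gj v j 0).int_mul (tφ.pd (ee 0)).m2
  have i1 := (m2_gj v j 1).int_mul (tφ.pd (ee 1)).m2
  have i2 : Integrable fun a => gj v j 0 a * pd (ee 0) (fun q => ψ (Thi x τ γ q)) a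
      + gj v j 1 a * pd (ee 1) (fun q => ψ (Thi x τ γ q)) a := i0.add i1
  rw [Fin.sum_univ_two, ← integral_add i0 i1, ← int_comp mp i2.aestronglyMeasurable,
    ← int_comp mp ((m2_vl v' j).int_mul tφ.m2).aestronglyMeasurable] at e
  rw [Fin.sum_univ_two, ← integral_add ((H.md 0).int_mul (hψ.dd hc.gam 0).m2)
    ((H.md 1).int_mul (hψ.dd hc.gam 1).m2)]
  have e1 : ∫ p, -T (v' (j, none)) p * ψ p
      = -∫ p, vl v' j (Th x τ γ p) * ψ (Thi x τ γ (Th x τ γ p)) := by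
    rw [← integral_neg]
    refine integral_congr_ae ((hTf (v' (j, none))).mono fun p hp => ?_)
    simp only [hp, Thi_Th hc.un, neg_mul]
    rfl
  rw [e1, eq_neg_iff_add_eq_zero, add_comm, ← e]
  congr 1
  refine integral_congr_ae (Eventually.of_forall fun p => ?_)
  simp only [(ch ψ hψ.1).2, tv, bv, Fin.sum_univ_two, Thi_Th hc.un]
  ring

end Z1

open Z1 in
theorem rowZ1 : OfZ1 := by
  intro hT hk Ω x τ γ r r' w I T hc h0 hr hw hY hI hTf he k j
  have mp := (hT x τ γ hc.un hc.gam).1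
  have it : ∀ m t, iteratedDeriv m (fun t => T (w t (j, none))) t
      = T (iteratedDeriv m w t (j, none)) := fun m t => by
    rw [← iter_cp hw]
    exact congrFun (iter_clm T (sm_cp hw (j, none)) m) t
  have nT : ∀ v : E6, nm (T (v (j, none))) ≤ ‖v‖ := fun v => by
    rw [nm_congr (hTf _), nm_comp mp (M2.coe _)]
    exact nm_co_le v _
  have bd : ∀ m t₀, ∀ᶠ t in 𝓝 t₀, ‖iteratedDeriv m w t‖ ≤ ‖iteratedDeriv m w t₀‖ + 1 :=
    fun m t₀ => ((sm_iter hw m).continuous.norm.continuousAt.eventually_lt continuousAt_const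
      (lt_add_one _)).mono fun _ => le_of_lt
  induction k generalizing r' with
  | zero =>
    intro m t₀ _
    refine ⟨‖iteratedDeriv m w t₀‖ + 1, by positivity, (bd m t₀).mono fun t ht => ?_⟩
    rw [it]
    exact HB.zero (M2.coe _) ((nT _).trans ht)
  | succ k ih =>
    intro m t₀ ht₀
    obtain ⟨M, M0, hM⟩ := ih ((r + r') / 2) (by linarith) (by linarith) (m + 1) t₀ ht₀
    have B0 : 0 ≤ ‖iteratedDeriv m w t₀‖ + 1 := by positivity
    obtain ⟨C, C0, hC⟩ := hk γ 0 k ((r + r') / 2) r' (M + 2 * (‖iteratedDeriv m w t₀‖ + 1)) hc.gam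
      le_rfl h0 (by linarith) (by linarith)
    refine ⟨C, C0, ?_⟩
    filter_upwards [hM, bd m t₀, hI.mem_nhds ht₀] with t a b ht
    rw [it] at a ⊢
    have s := so hT hc hTf (v := iteratedDeriv m w t) (v' := iteratedDeriv (m + 1) w t)
      (iter_mem (isClosed_YZ Ω) m (Eventually.of_forall hY)) (j := j)
      fun φ hφ => heat hw hI hφ (fun s hs => he s hs j φ hφ) m t ht
    refine (hC _ _ _ (s.mono (by linarith)) (by linarith [nT (iteratedDeriv m w t)]) (fun i => ?_)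
      (a.neg.mono subset_rfl le_rfl (by linarith))).1.mono subset_rfl (Nat.le_succ _) le_rfl
    have := nm_tv hc.un mp (m2_gj (iteratedDeriv m w t) j) i
    linarith [(nb_norm (iteratedDeriv m w t) j).2 0, (nb_norm (iteratedDeriv m w t) j).2 1]

end Pool.Agent.MP_ed9623_an.H77
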